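import Pool.Agent.Y63.NV.Stm
import Pool.Agent.Y63.AWC.Ch

/-!
# Central characters of finite groups and their reductions
-/

set_option autoImplicit false
set_option linter.unusedSectionVars false

open scoped Classical

noncomputable section

namespace Pool.Agent.Y930.NV

open Pool.Agent.Y63.AWC (IsIrreducibleCharacter)
open Pool.Agent.Y63.NV

/-! ### the reduction map -/

section red
variable {F : Type} [Field F] (red : integralClosure ℤ ℂ →+* F)

theorem redC_of {a : ℂ} (h : IsIntegral ℤ a) : redC red a = red ⟨a, h⟩ := dif_pos h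

theorem redC_add {a b : ℂ} (ha : IsIntegral ℤ a) (hb : IsIntegral ℤ b) :
    redC red (a + b) = redC red a + redC red b := by
  rw [redC_of red ha, redC_of red hb, redC_of red (ha.add hb), ← map_add]
  rfl

theorem redC_mul {a b : ℂ} (ha : IsIntegral ℤ a) (hb : IsIntegral ℤ b) :
    redC red (a * b) = redC red a * redC red b := by
  rw [redC_of red ha, redC_of red hb, redC_of red (ha.mul hb), ← map_mul]
  rfl

theorem redC_zero : redC red 0 = 0 := by
  rw [redC_of red isIntegral_zero]
  exact map_zero red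

theorem redC_one : redC red 1 = 1 := by
  rw [redC_of red isIntegral_one]
  exact map_one red

theorem int_intCast (n : ℤ) : IsIntegral ℤ (n : ℂ) := by
  have := isIntegral_algebraMap (R := ℤ) (A := ℂ) (x := n)
  simpa using this

theorem redC_intCast (n : ℤ) : redC red (n : ℂ) = (n : F) := by
  rw [redC_of red (int_intCast n)]
  have : (⟨(n : ℂ), int_intCast n⟩ : integralClosure ℤ ℂ) = (n : integralClosure ℤ ℂ) := by
    apply Subtype.ext
    simp
  rw [this, map_intCast]

theorem redC_sum {ι : Type} (s : Finset ι) (a : ι → ℂ) (ha : ∀ i ∈ s, IsIntegral ℤ (a i)) :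
    redC red (∑ i ∈ s, a i) = ∑ i ∈ s, redC red (a i) := by
  induction s using Finset.induction_on with
  | empty => simp [redC_zero]
  | insert i s his ih =>
    have h2 : IsIntegral ℤ (∑ j ∈ s, a j) :=
      IsIntegral.sum a fun j hj => ha j (Finset.mem_insert_of_mem hj)
    rw [Finset.sum_insert his, Finset.sum_insert his,
      redC_add red (ha i (Finset.mem_insert_self i s)) h2,
      ih fun j hj => ha j (Finset.mem_insert_of_mem hj)]

end red

/-! ### class functions -/

section cls
variable {J : Type} [Group J] [Fintype J]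

/-- class functions with values in a commutative ring -/
def Cf {A : Type} (f : J → A) : Prop := ∀ g x : J, f (g * x * g⁻¹) = f x

/-- the indicator function of a conjugacy class -/
def ind (A : Type) [CommRing A] (C : ConjClasses J) : J → A := fun g => if ConjClasses.mk g = C then 1 else 0

theorem mk_conj (g x : J) : ConjClasses.mk (g * x * g⁻¹) = ConjClasses.mk x := by
  rw [ConjClasses.mk_eq_mk_iff_isConj, isConj_comm, isConj_iff]
  exact ⟨g, rfl⟩

theorem Cf_ind (A : Type) [CommRing A] (C : ConjClasses J) : Cf (ind A C) := by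
  intro g x
  unfold ind
  rw [mk_conj]

theorem mk_out (C : ConjClasses J) : ConjClasses.mk C.out = C := Quotient.out_eq C

theorem Cf_out {A : Type} {f : J → A} (hf : Cf f) {x : J} {C : ConjClasses J}
    (h : ConjClasses.mk x = C) : f C.out = f x := by
  have h2 : ConjClasses.mk x = ConjClasses.mk C.out := by rw [h, mk_out]
  rw [ConjClasses.mk_eq_mk_iff_isConj, isConj_iff] at h2
  obtain ⟨c, hc⟩ := h2
  rw [← hc, hf]

theorem Cf_expand {A : Type} [CommRing A] {f : J → A} (hf : Cf f) (x : J) :
    f x = ∑ C : ConjClasses J, f C.out * ind A C x := by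
  rw [Finset.sum_eq_single (ConjClasses.mk x)]
  · rw [ind, if_pos rfl, mul_one, Cf_out hf rfl]
  · intro C _ hC
    rw [ind, if_neg (fun h => hC h.symm), mul_zero]
  · intro h
    exact absurd (Finset.mem_univ _) h

theorem ind_out (A : Type) [CommRing A] (C D : ConjClasses J) :
    ind A C D.out = if D = C then 1 else 0 := by
  rw [ind, mk_out]

/-- convolution over a finite group -/
def cv {A : Type} [CommRing A] (f g : J → A) : J → A := fun x => ∑ y : J, f y * g (y⁻¹ * x)

theorem cv_eq_conv {F : Type} [Field F] (f g : J → F) : conv f g = cv f g := by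
  funext x
  unfold conv cv
  rw [finsum_eq_sum_of_fintype]

theorem Cf_cv {A : Type} [CommRing A] {f g : J → A} (hf : Cf f) (hg : Cf g) : Cf (cv f g) := by
  intro h x
  unfold cv
  refine Fintype.sum_equiv (MulAut.conj h⁻¹).toEquiv _ _ fun y => ?_
  have e1 : (MulAut.conj h⁻¹).toEquiv y = h⁻¹ * y * h := by simp
  rw [e1]
  have e2 : f (h⁻¹ * y * h) = f y := by
    have := hf h⁻¹ y
    simpa using this
  have e3 : g ((h⁻¹ * y * h)⁻¹ * x) = g (y⁻¹ * (h * x * h⁻¹)) := by
    have := hg h ((h⁻¹ * y * h)⁻¹ * x)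
    rw [← this]
    congr 1
    group
  rw [e2, e3]

end cls

/-! ### central characters -/

section om
variable {J : Type} [Group J] [Fintype J]

/-- the operator `Σ f(g) ρ(g)` -/
def Tp {V : Type} [AddCommGroup V] [Module ℂ V] (ρ : Representation ℂ J V) (f : J → ℂ) :
    Module.End ℂ V := ∑ g : J, f g • ρ g

/-- the central character -/
def om (χ : J → ℂ) (f : J → ℂ) : ℂ := (∑ g : J, f g * χ g) / χ 1

theorem Tp_scalar {V : Type} [AddCommGroup V] [Module ℂ V] [FiniteDimensional ℂ V]
    (ρ : Representation ℂ J V) (hr : ρ.IsIrreducible) (f : J → ℂ) (hf : Cf f) :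
    ∃ c : ℂ, Tp ρ f = c • (1 : Module.End ℂ V) := by
  have hcomm : ∀ (h : J) (v : V), Tp ρ f (ρ h v) = ρ h (Tp ρ f v) := by
    intro h v
    simp only [Tp, LinearMap.sum_apply, LinearMap.smul_apply, map_sum, map_smul]
    have : ∀ g : J, ρ g (ρ h v) = ρ h (ρ (h⁻¹ * g * h) v) := by
      intro g
      rw [← Module.End.mul_apply, ← Module.End.mul_apply, ← map_mul, ← map_mul]
      congr 2
      group
    simp_rw [this]
    refine Fintype.sum_equiv (MulAut.conj h⁻¹).toEquiv _ _ ?_
    intro g
    have e1 : (MulAut.conj h⁻¹).toEquiv g = h⁻¹ * g * h := by simp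
    rw [e1]
    have h1 : f (h⁻¹ * g * h) = f g := by
      have := hf h⁻¹ g
      simpa using this
    rw [h1]
  let T : Representation.IntertwiningMap ρ ρ :=
    (Tp ρ f).intertwiningMap_of_isIntertwiningMap ρ ρ hcomm
  obtain ⟨c, hc⟩ := (Representation.IsIrreducible.algebraMap_intertwiningMap_bijective_of_isAlgClosed
    (ρ := ρ)).2 T
  refine ⟨c, ?_⟩
  ext v
  have := congrArg (fun S : Representation.IntertwiningMap ρ ρ => S v) hc
  have h2 : T v = Tp ρ f v := rfl
  rw [← h2]
  exact this.symm

theorem Tp_eq {V : Type} [AddCommGroup V] [Module ℂ V] [FiniteDimensional ℂ V]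
    (ρ : Representation ℂ J V) (hr : ρ.IsIrreducible) (f : J → ℂ) (hf : Cf f) :
    Tp ρ f = om ρ.character f • (1 : Module.End ℂ V) := by
  obtain ⟨c, hc⟩ := Tp_scalar ρ hr f hf
  have hnt := Pool.Agent.Y63.AWC.irr_nontrivial ρ hr
  have htr : LinearMap.trace ℂ V (Tp ρ f) = ∑ g : J, f g * ρ.character g := by
    unfold Tp
    rw [map_sum]
    refine Finset.sum_congr rfl fun g _ => ?_
    rw [map_smul, smul_eq_mul]
    rfl
  have h1 : ρ.character 1 ≠ 0 := by
    rw [ρ.char_one]
    exact_mod_cast (Module.finrank_pos (R := ℂ) (M := V)).ne'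
  have h2 : c = om ρ.character f := by
    unfold om
    rw [eq_div_iff h1, ← htr, hc, map_smul, LinearMap.trace_one, smul_eq_mul, ρ.char_one]
  rw [hc, h2]

theorem Tp_cv {V : Type} [AddCommGroup V] [Module ℂ V]
    (ρ : Representation ℂ J V) (f g : J → ℂ) : Tp ρ (cv f g) = Tp ρ f * Tp ρ g := by
  unfold Tp cv
  rw [Finset.sum_mul_sum]
  have h1 : ∀ x : J, (∑ y : J, f y * g (y⁻¹ * x)) • ρ x = ∑ y : J, (f y * g (y⁻¹ * x)) • ρ x :=
    fun x => Finset.sum_smul
  simp_rw [h1]
  rw [Finset.sum_comm]
  refine Finset.sum_congr rfl fun y _ => ?_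
  refine (Fintype.sum_equiv (Equiv.mulLeft y) _ _ fun x => ?_).symm
  rw [Equiv.coe_mulLeft, inv_mul_cancel_left, map_mul, smul_mul_smul_comm]

theorem irr_one_ne {χ : J → ℂ} (h : IsIrreducibleCharacter χ) : χ 1 ≠ 0 := by
  obtain ⟨V, _, _, _, ρ, hr, rfl⟩ := h
  have hnt := Pool.Agent.Y63.AWC.irr_nontrivial ρ hr
  rw [ρ.char_one]
  exact_mod_cast (Module.finrank_pos (R := ℂ) (M := V)).ne'

theorem om_mul {χ : J → ℂ} (h : IsIrreducibleCharacter χ) {f g : J → ℂ} (hf : Cf f) (hg : Cf g) :
    om χ (cv f g) = om χ f * om χ g := by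
  obtain ⟨V, _, _, _, ρ, hr, rfl⟩ := h
  have hnt := Pool.Agent.Y63.AWC.irr_nontrivial ρ hr
  have h1 := Tp_eq ρ hr _ (Cf_cv hf hg)
  rw [Tp_cv, Tp_eq ρ hr f hf, Tp_eq ρ hr g hg, smul_mul_smul_comm, one_mul] at h1
  obtain ⟨v, hv⟩ := exists_ne (0 : V)
  have h2 := LinearMap.congr_fun h1 v
  simp only [LinearMap.smul_apply, Module.End.one_apply] at h2
  exact (smul_left_injective ℂ hv h2).symm

theorem om_one {χ : J → ℂ} (h : IsIrreducibleCharacter χ) : om χ (Pi.single 1 1) = 1 := by
  unfold om
  rw [Finset.sum_eq_single (1 : J)]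
  · rw [Pi.single_eq_same, one_mul, div_self (irr_one_ne h)]
  · intro g _ hg
    rw [Pi.single_eq_of_ne hg, zero_mul]
  · intro h
    exact absurd (Finset.mem_univ _) h

theorem om_sum (χ : J → ℂ) {ι : Type} (s : Finset ι) (a : ι → ℂ) (f : ι → J → ℂ) :
    om χ (fun g => ∑ i ∈ s, a i * f i g) = ∑ i ∈ s, a i * om χ (f i) := by
  unfold om
  have h1 : ∀ i ∈ s, a i * ((∑ g : J, f i g * χ g) / χ 1) = (∑ g : J, a i * f i g * χ g) / χ 1 := by
    intro i _
    rw [mul_div_assoc', Finset.mul_sum]
    congr 1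
    exact Finset.sum_congr rfl fun g _ => by ring
  rw [Finset.sum_congr rfl h1, ← Finset.sum_div, Finset.sum_comm]
  congr 1
  refine Finset.sum_congr rfl fun g _ => ?_
  rw [Finset.sum_mul]

/-- integrality -/
theorem om_int {χ : J → ℂ} (h : IsIrreducibleCharacter χ) {n : J → ℤ} (hn : Cf n) :
    IsIntegral ℤ (om χ (fun g => (n g : ℂ))) := by
  obtain ⟨V, _, _, _, ρ, hr, rfl⟩ := h
  have hnt := Pool.Agent.Y63.AWC.irr_nontrivial ρ hr
  have hf : Cf (fun g => (n g : ℂ)) := fun g x => by
    show (n (g * x * g⁻¹) : ℂ) = n x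
    rw [hn]
  have hc := Tp_eq ρ hr _ hf
  let φ : MonoidAlgebra ℤ J →ₐ[ℤ] Module.End ℂ V := MonoidAlgebra.lift ℤ (Module.End ℂ V) J ρ
  let k : MonoidAlgebra ℤ J := ∑ g : J, MonoidAlgebra.single g (n g)
  have hk : IsIntegral ℤ k := IsIntegral.of_finite ℤ k
  have h1 : IsIntegral ℤ (φ k) := hk.map φ
  have h2 : φ k = Tp ρ (fun g => (n g : ℂ)) := by
    simp only [φ, k, map_sum, Tp]
    refine Finset.sum_congr rfl fun g _ => ?_
    rw [MonoidAlgebra.lift_single]
    ext v
    rw [LinearMap.smul_apply, LinearMap.smul_apply, Int.cast_smul_eq_zsmul]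
  rw [h2, hc] at h1
  have h3 : (om ρ.character (fun g => (n g : ℂ)) • (1 : Module.End ℂ V)) =
      algebraMap ℂ (Module.End ℂ V) (om ρ.character (fun g => (n g : ℂ))) :=
    (Algebra.algebraMap_eq_smul_one _).symm
  rw [h3] at h1
  exact (isIntegral_algebraMap_iff
    (FaithfulSMul.algebraMap_injective ℂ (Module.End ℂ V))).mp h1

/-- the value at the indicator of a class -/
theorem om_ind (χ : J → ℂ) (hχ : Cf χ) (C : ConjClasses J) :
    om χ (ind ℂ C) = (Nat.card C.carrier : ℂ) * χ C.out / χ 1 := by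
  unfold om
  congr 1
  have h1 : ∀ g : J, ind ℂ C g * χ g = if ConjClasses.mk g = C then χ C.out else 0 := by
    intro g
    unfold ind
    split_ifs with h
    · rw [one_mul, Cf_out hχ h]
    · rw [zero_mul]
  rw [Finset.sum_congr rfl fun g _ => h1 g, ← Finset.sum_filter, Finset.sum_const, nsmul_eq_mul]
  congr 2
  rw [Nat.card_eq_fintype_card, ← Set.toFinset_card]
  congr 1
  ext g
  simp [ConjClasses.mem_carrier_iff_mk_eq]

theorem irr_Cf {χ : J → ℂ} (h : IsIrreducibleCharacter χ) : Cf χ := by
  obtain ⟨V, _, _, _, ρ, hr, rfl⟩ := h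
  intro g x
  have := ρ.char_conj x g
  exact this

end om

/-! ### the reduced central character -/

section R
variable {F : Type} [Field F] (red : integralClosure ℤ ℂ →+* F) {J : Type} [Group J] [Fintype J]

/-- the reduction of the value at an integer valued class function -/
def R (χ : J → ℂ) (n : J → ℤ) : F := redC red (om χ (fun g => (n g : ℂ)))

theorem ind_cast (C : ConjClasses J) : (fun g => ((ind ℤ C g : ℤ) : ℂ)) = ind ℂ C := by
  funext g
  unfold ind
  split_ifs <;> simp

theorem R_expand {χ : J → ℂ} (h : IsIrreducibleCharacter χ) {n : J → ℤ} (hn : Cf n) :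
    R red χ n = ∑ C : ConjClasses J, (n C.out : F) * R red χ (ind ℤ C) := by
  unfold R
  have h1 : (fun g => (n g : ℂ)) =
      fun g => ∑ C : ConjClasses J, (n C.out : ℂ) * (fun g => ((ind ℤ C g : ℤ) : ℂ)) g := by
    funext g
    have := Cf_expand hn g
    conv_lhs => rw [this]
    push_cast
    rfl
  rw [h1, om_sum χ Finset.univ (fun C : ConjClasses J => (n C.out : ℂ))
    (fun (C : ConjClasses J) (g : J) => ((ind ℤ C g : ℤ) : ℂ)),
    redC_sum red _ _ (fun C _ => (int_intCast _).mul (om_int h (Cf_ind ℤ C)))]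
  refine Finset.sum_congr rfl fun C _ => ?_
  rw [redC_mul red (int_intCast _) (om_int h (Cf_ind ℤ C)), redC_intCast]

theorem R_mul {χ : J → ℂ} (h : IsIrreducibleCharacter χ) {n m : J → ℤ} (hn : Cf n) (hm : Cf m) :
    R red χ (cv n m) = R red χ n * R red χ m := by
  unfold R
  have h1 : (fun g => ((cv n m g : ℤ) : ℂ)) = cv (fun g => (n g : ℂ)) (fun g => (m g : ℂ)) := by
    funext g
    unfold cv
    push_cast
    rfl
  have hn' : Cf (fun g => (n g : ℂ)) := fun g x => by
    show (n (g * x * g⁻¹) : ℂ) = n x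
    rw [hn]
  have hm' : Cf (fun g => (m g : ℂ)) := fun g x => by
    show (m (g * x * g⁻¹) : ℂ) = m x
    rw [hm]
  rw [h1, om_mul h hn' hm', redC_mul red (om_int h hn) (om_int h hm)]

theorem centralValue_eq {χ : J → ℂ} (h : IsIrreducibleCharacter χ) (f : J → F) :
    centralValue red χ f = ∑ C : ConjClasses J, f C.out * R red χ (ind ℤ C) := by
  unfold centralValue R
  rw [finsum_eq_sum_of_fintype]
  refine Finset.sum_congr rfl fun C _ => ?_
  rw [ind_cast, om_ind χ (irr_Cf h)]

end R

theorem cvh : S_CVH := by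
  intro F _ red J _ _ χ h
  have : Fintype J := Fintype.ofFinite J
  refine ⟨?_, ?_, ?_, ?_⟩
  · intro f g _ _
    rw [centralValue_eq red h, centralValue_eq red h, centralValue_eq red h,
      ← Finset.sum_add_distrib]
    refine Finset.sum_congr rfl fun C _ => ?_
    rw [Pi.add_apply, add_mul]
  · intro a f _
    rw [centralValue_eq red h, centralValue_eq red h, Finset.mul_sum]
    refine Finset.sum_congr rfl fun C _ => ?_
    rw [Pi.smul_apply, smul_eq_mul, mul_assoc]
  · rw [centralValue_eq red h, Finset.sum_eq_single (ConjClasses.mk (1 : J))]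
    · have h1 : (ConjClasses.mk (1 : J)).out = 1 := by
        have h2 : ConjClasses.mk (ConjClasses.mk (1 : J)).out = ConjClasses.mk (1 : J) := mk_out _
        rw [ConjClasses.mk_eq_mk_iff_isConj] at h2
        exact isConj_one_right.1 h2.symm
      rw [h1, Pi.single_eq_same, one_mul]
      unfold R
      have h3 : (fun g => ((ind ℤ (ConjClasses.mk (1 : J)) g : ℤ) : ℂ)) = Pi.single 1 1 := by
        rw [ind_cast]
        funext g
        unfold ind
        by_cases hg : g = 1
        · subst hg
          rw [if_pos rfl, Pi.single_eq_same]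
        · rw [if_neg, Pi.single_eq_of_ne hg]
          intro h4
          rw [ConjClasses.mk_eq_mk_iff_isConj] at h4
          exact hg (isConj_one_right.1 h4.symm)
      rw [h3, om_one h, redC_one]
    · intro C _ hC
      have h1 : C.out ≠ 1 := by
        intro h2
        apply hC
        rw [← mk_out C, h2]
      rw [Pi.single_eq_of_ne h1, zero_mul]
    · intro h
      exact absurd (Finset.mem_univ _) h
  · intro f g hf hg
    rw [centralValue_eq red h, centralValue_eq red h, centralValue_eq red h, Finset.sum_mul_sum,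
      cv_eq_conv]
    have hf' : Cf f := hf
    have hg' : Cf g := hg
    have h1 : ∀ x : J, cv f g x = ∑ C : ConjClasses J, ∑ D : ConjClasses J,
        f C.out * g D.out * ((cv (ind ℤ C) (ind ℤ D) x : ℤ) : F) := by
      intro x
      unfold cv
      have h2 : ∀ y : J, f y * g (y⁻¹ * x) = ∑ C : ConjClasses J, ∑ D : ConjClasses J,
          f C.out * g D.out * (((ind ℤ C y * ind ℤ D (y⁻¹ * x) : ℤ)) : F) := by
        intro y
        rw [Cf_expand hf' y, Cf_expand hg' (y⁻¹ * x), Finset.sum_mul_sum]
        refine Finset.sum_congr rfl fun C _ => Finset.sum_congr rfl fun D _ => ?_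
        have e : ∀ (C : ConjClasses J) (z : J), ((ind ℤ C z : ℤ) : F) = ind F C z := by
          intro C z
          unfold ind
          split_ifs <;> simp
        rw [Int.cast_mul, e, e]
        ring
      simp_rw [h2]
      rw [Finset.sum_comm]
      refine Finset.sum_congr rfl fun C _ => ?_
      rw [Finset.sum_comm]
      refine Finset.sum_congr rfl fun D _ => ?_
      rw [← Finset.mul_sum]
      push_cast
      rfl
    have h3 : ∀ E : ConjClasses J, cv f g E.out * R red χ (ind ℤ E) =
        ∑ C : ConjClasses J, ∑ D : ConjClasses J, f C.out * g D.out *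
          (((cv (ind ℤ C) (ind ℤ D) E.out : ℤ) : F) * R red χ (ind ℤ E)) := by
      intro E
      rw [h1, Finset.sum_mul]
      refine Finset.sum_congr rfl fun C _ => ?_
      rw [Finset.sum_mul]
      refine Finset.sum_congr rfl fun D _ => ?_
      ring
    simp_rw [h3]
    rw [Finset.sum_comm]
    refine Finset.sum_congr rfl fun C _ => ?_
    rw [Finset.sum_comm]
    refine Finset.sum_congr rfl fun D _ => ?_
    rw [← Finset.mul_sum, ← R_expand red h (Cf_cv (Cf_ind ℤ C) (Cf_ind ℤ D)),
      R_mul red h (Cf_ind ℤ C) (Cf_ind ℤ D)]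
    ring

/-- inflation of irreducible characters -/
theorem irr_inflate {J K : Type} [Group J] [Group K] (π : J →* K) (hπ : Function.Surjective π)
    {χ : K → ℂ} (h : IsIrreducibleCharacter χ) : IsIrreducibleCharacter (fun x => χ (π x)) := by
  obtain ⟨V, i1, i2, i3, ρ, hr, rfl⟩ := h
  refine ⟨V, i1, i2, i3, ρ.comp π, ?_, rfl⟩
  have e : Subrepresentation (ρ.comp π) ≃o Subrepresentation ρ :=
    { toFun := fun W => ⟨W.toSubmodule, fun g v hv => by
        obtain ⟨x, rfl⟩ := hπ g
        exact W.apply_mem_toSubmodule x hv⟩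
      invFun := fun W => ⟨W.toSubmodule, fun g v hv => W.apply_mem_toSubmodule (π g) hv⟩
      left_inv := fun W => rfl
      right_inv := fun W => rfl
      map_rel_iff' := Iff.rfl }
  exact (OrderIso.isSimpleOrder_iff e).2 hr

theorem inf : S_INF := by
  intro F _ red J K _ _ _ _ π χ f hπ h hf
  have : Fintype J := Fintype.ofFinite J
  have : Fintype K := Fintype.ofFinite K
  have hf' : Cf f := hf
  rw [centralValue_eq red (irr_inflate π hπ h), centralValue_eq red h]
  -- the number of elements of the class `C` over `y`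
  set nC : ConjClasses J → K → ℤ := fun C y => ∑ g : J, if π g = y then ind ℤ C g else 0 with hnC
  have hcf : ∀ C, Cf (nC C) := by
    intro C u y
    obtain ⟨w, rfl⟩ := hπ u
    rw [hnC]
    simp only
    refine Fintype.sum_equiv (MulAut.conj w⁻¹).toEquiv _ _ fun g => ?_
    have e1 : (MulAut.conj w⁻¹).toEquiv g = w⁻¹ * g * w := by simp
    rw [e1]
    have e2 : ind ℤ C (w⁻¹ * g * w) = ind ℤ C g := by
      have := Cf_ind ℤ C w⁻¹ g
      simpa using this
    rw [e2]
    congr 1
    rw [map_mul, map_mul, map_inv]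
    apply propext
    constructor
    · intro hh
      rw [hh]
      group
    · intro hh
      rw [← hh]
      group
  have h1 : ∀ C : ConjClasses J, R red (fun x => χ (π x)) (ind ℤ C) = R red χ (nC C) := by
    intro C
    unfold R
    congr 1
    unfold om
    simp only [map_one]
    congr 1
    have h2 : ∀ y : K, ((nC C y : ℤ) : ℂ) * χ y =
        ∑ g : J, if π g = y then ((ind ℤ C g : ℤ) : ℂ) * χ (π g) else 0 := by
      intro y
      rw [hnC]
      simp only
      push_cast
      rw [Finset.sum_mul]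
      refine Finset.sum_congr rfl fun g _ => ?_
      split_ifs with hg
      · rw [hg]
      · rw [zero_mul]
    simp_rw [h2]
    rw [Finset.sum_comm]
    refine Finset.sum_congr rfl fun g _ => ?_
    rw [Finset.sum_ite_eq, if_pos (Finset.mem_univ _)]
  simp_rw [h1]
  have h3 : ∀ C : ConjClasses J, f C.out * R red χ (nC C) =
      ∑ D : ConjClasses K, f C.out * (((nC C D.out : ℤ) : F) * R red χ (ind ℤ D)) := by
    intro C
    rw [R_expand red h (hcf C), Finset.mul_sum]
  simp_rw [h3]
  rw [Finset.sum_comm]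
  refine Finset.sum_congr rfl fun D _ => ?_
  simp_rw [← mul_assoc]
  rw [← Finset.sum_mul]
  congr 1
  rw [finsum_eq_sum_of_fintype]
  have h4 : ∀ C : ConjClasses J, f C.out * ((nC C D.out : ℤ) : F) =
      ∑ g : J, if π g = D.out then f C.out * ind F C g else 0 := by
    intro C
    rw [hnC]
    simp only
    push_cast
    rw [Finset.mul_sum]
    refine Finset.sum_congr rfl fun g _ => ?_
    have e : ((ind ℤ C g : ℤ) : F) = ind F C g := by
      unfold ind
      split_ifs <;> simp
    split_ifs with hg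
    · rw [e]
    · rw [mul_zero]
  simp_rw [h4]
  rw [Finset.sum_comm]
  refine Finset.sum_congr rfl fun g _ => ?_
  split_ifs with hg
  · exact (Cf_expand hf' g).symm
  · simp

end Pool.Agent.Y930.NV
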