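import Pool.Agent.Y63.NV.Stm

/-!
# Brauer's induced block of a weight is an algebra homomorphism
-/

set_option autoImplicit false
set_option linter.unusedSectionVars false

open scoped Classical

noncomputable section

namespace Pool.Agent.Y930.NV

open Pool.Agent.Y63.NV

/-- The fixed points. -/
def fx (Q Y : Type) [Group Q] [Fintype Y] [MulAction Q Y] : Finset Y :=
  Finset.univ.filter (fun y : Y => ∀ q : Q, q • y = y)

theorem mem_fx {Q Y : Type} [Group Q] [Fintype Y] [MulAction Q Y] (y : Y) :
    y ∈ fx Q Y ↔ ∀ q : Q, q • y = y := by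
  unfold fx
  rw [Finset.mem_filter]
  simp

/-- Sums of invariant functions over a set with an action of a `p`-group are sums over the fixed
points, in characteristic `p`. -/
theorem sum_fixed {p : ℕ} [Fact p.Prime] {F : Type} [Field F] [CharP F p] {Q Y : Type} [Group Q]
    [Fintype Y] [MulAction Q Y] (hQ : IsPGroup p Q) (φ : Y → F)
    (hφ : ∀ (q : Q) (y : Y), φ (q • y) = φ y) :
    ∑ y : Y, φ y = ∑ y ∈ fx Q Y, φ y := by
  unfold fx
  rw [← Finset.sum_fiberwise_of_maps_to (s := Finset.univ) (t := Finset.univ.image φ) (g := φ)
    (fun y _ => Finset.mem_image_of_mem φ (Finset.mem_univ y)),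
    ← Finset.sum_fiberwise_of_maps_to (s := Finset.univ.filter (fun y : Y => ∀ q : Q, q • y = y))
      (t := Finset.univ.image φ) (g := φ)
      (fun y _ => Finset.mem_image_of_mem φ (Finset.mem_univ y))]
  refine Finset.sum_congr rfl fun b _ => ?_
  have h1 : ∀ s : Finset Y, ∑ y ∈ s.filter (fun y => φ y = b), φ y =
      ((s.filter (fun y => φ y = b)).card : F) * b := by
    intro s
    rw [Finset.sum_congr rfl (fun y hy => (Finset.mem_filter.1 hy).2), Finset.sum_const,
      nsmul_eq_mul]
  rw [h1, h1]
  congr 1
  rw [CharP.natCast_eq_natCast F p]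
  let S : SubMulAction Q Y :=
    { carrier := {y | φ y = b}
      smul_mem' := fun q y hy => by
        show φ (q • y) = b
        rw [hφ]
        exact hy }
  have h2 := hQ.card_modEq_card_fixedPoints S
  have e1 : Nat.card S = (Finset.univ.filter (fun y => φ y = b)).card := by
    rw [← Fintype.card_subtype, ← Nat.card_eq_fintype_card]
    rfl
  have e2 : Nat.card (MulAction.fixedPoints Q S) =
      ((Finset.univ.filter (fun y : Y => ∀ q : Q, q • y = y)).filter (fun y => φ y = b)).card := by
    rw [Finset.filter_filter, ← Fintype.card_subtype, ← Nat.card_eq_fintype_card]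
    refine Nat.card_congr
      { toFun := fun y => ⟨y.1.1, fun q => congrArg Subtype.val (y.2 q), y.1.2⟩
        invFun := fun y => ⟨⟨y.1, y.2.2⟩, fun q => Subtype.ext (y.2.1 q)⟩
        left_inv := fun y => rfl
        right_inv := fun y => rfl }
  rw [e1, e2] at h2
  exact h2

theorem wblk (h1 : S_CVH) (h2 : S_CUTW) : S_WBLK := by
  intro p _ F _ _ _ red G _ _ Q
  have : Fintype G := Fintype.ofFinite G
  set N := Subgroup.normalizer (Q : Set G) with hN
  intro χ hQ hwt
  have hblk := h1 F red N χ hwt.irr
  set QJ := Q.subgroupOf N with hQJ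
  have hnorm : QJ.Normal := by
    rw [hQJ, hN]
    exact Subgroup.normal_in_normalizer
  have hpg : IsPGroup p QJ := by
    rw [hQJ]
    exact hQ.comap_subtype
  have hres : ∀ f : G → F, IsClassFun f → IsClassFun (fun x : N => f x) := by
    intro f hf g x
    exact hf g x
  have hcut : ∀ f : G → F, IsClassFun f →
      IsClassFun (cut (fun x : N => f x) (Subgroup.centralizer (QJ : Set N))) := by
    intro f hf g x
    unfold cut
    have e : g * x * g⁻¹ ∈ Subgroup.centralizer (QJ : Set N) ↔
        x ∈ Subgroup.centralizer (QJ : Set N) := by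
      rw [Subgroup.mem_centralizer_iff, Subgroup.mem_centralizer_iff]
      constructor
      · intro h q hq
        have h3 := h (g * q * g⁻¹) (hnorm.conj_mem q hq g)
        have h4 : g * (q * x) * g⁻¹ = g * (x * q) * g⁻¹ := by
          have e1 : g * q * g⁻¹ * (g * x * g⁻¹) = g * (q * x) * g⁻¹ := by group
          have e2 : g * x * g⁻¹ * (g * q * g⁻¹) = g * (x * q) * g⁻¹ := by group
          rw [← e1, ← e2]
          exact h3
        exact mul_left_cancel (mul_right_cancel h4)
      · intro h q hq
        have h3 := h (g⁻¹ * q * g) (by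
          have := hnorm.conj_mem q hq g⁻¹
          rwa [inv_inv] at this)
        have e1 : q * (g * x * g⁻¹) = g * (g⁻¹ * q * g * x) * g⁻¹ := by group
        have e2 : g * x * g⁻¹ * q = g * (x * (g⁻¹ * q * g)) * g⁻¹ := by group
        rw [e1, e2, h3]
    simp only [e]
    split_ifs
    · exact hres f hf g x
    · rfl
  have hval : ∀ f : G → F, IsClassFun f → centralValue red χ (fun x => f x) =
      centralValue red χ (cut (fun x : N => f x) (Subgroup.centralizer (QJ : Set N))) := by
    intro f hf
    exact (h2 p F red N QJ (fun x : N => f x) χ hnorm hpg (hres f hf) hwt).symm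
  refine ⟨?_, ?_, ?_, ?_⟩
  · intro f g hf hg
    exact hblk.add (fun x : N => f x) (fun x : N => g x) (hres f hf) (hres g hg)
  · intro a f hf
    exact hblk.smul a (fun x : N => f x) (hres f hf)
  · have e : (fun x : N => (Pi.single (1 : G) (1 : F) : G → F) x) = Pi.single (1 : N) (1 : F) := by
      funext x
      by_cases hx : x = 1
      · subst hx
        simp
      · rw [Pi.single_eq_of_ne hx, Pi.single_eq_of_ne]
        intro h
        exact hx (Subtype.ext h)
    show centralValue red χ (fun x : N => (Pi.single (1 : G) (1 : F) : G → F) x) = 1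
    rw [e]
    convert hblk.one
  · intro f g hf hg
    have hconv : IsClassFun (conv f g) := by
      intro h x
      unfold conv
      rw [finsum_eq_sum_of_fintype, finsum_eq_sum_of_fintype]
      refine Fintype.sum_equiv (MulAut.conj h⁻¹).toEquiv _ _ fun y => ?_
      have e1 : (MulAut.conj h⁻¹).toEquiv y = h⁻¹ * y * h := by simp
      rw [e1]
      have e2 : f (h⁻¹ * y * h) = f y := by
        have := hf h⁻¹ y
        simpa using this
      have e3 : g ((h⁻¹ * y * h)⁻¹ * x) = g (y⁻¹ * (h * x * h⁻¹)) := by
        have := hg h ((h⁻¹ * y * h)⁻¹ * x)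
        rw [← this]
        congr 1
        group
      rw [e2, e3]
    show centralValue red χ (fun x : N => conv f g x) =
      centralValue red χ (fun x : N => f x) * centralValue red χ (fun x : N => g x)
    rw [hval _ hconv, hval f hf, hval g hg, ← hblk.mul _ _ (hcut f hf) (hcut g hg)]
    congr 1
    funext x
    unfold conv
    rw [finsum_eq_sum_of_fintype]
    by_cases hx : x ∈ Subgroup.centralizer (QJ : Set N)
    · unfold cut
      rw [if_pos hx]
      show ∑ᶠ y : G, f y * g (y⁻¹ * x) = ∑ y : N,
        (if y ∈ Subgroup.centralizer (QJ : Set N) then f y else 0) *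
          if y⁻¹ * x ∈ Subgroup.centralizer (QJ : Set N) then g ((y⁻¹ * x : N) : G) else 0
      rw [finsum_eq_sum_of_fintype]
      let _ : MulAction Q G := MulAction.compHom G (MulAut.conj.comp Q.subtype)
      have hact : ∀ (q : Q) (y : G), q • y = (q : G) * y * (q : G)⁻¹ := fun q y => rfl
      have hxq : ∀ q ∈ Q, q * (x : G) = x * q := by
        intro q hq
        have h3 := Subgroup.mem_centralizer_iff.1 hx ⟨q, Subgroup.le_normalizer hq⟩
          (Subgroup.mem_subgroupOf.2 hq)
        exact congrArg Subtype.val h3
      rw [sum_fixed (p := p) (Q := Q) (Y := G) hQ (fun y => f y * g (y⁻¹ * x)) (by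
        intro q y
        rw [hact]
        have e1 : g (((q : G) * y * (q : G)⁻¹)⁻¹ * x) = g (y⁻¹ * x) := by
          have e2 : ((q : G) * y * (q : G)⁻¹)⁻¹ * x = (q : G) * (y⁻¹ * x) * (q : G)⁻¹ := by
            have e3 : (q : G)⁻¹ * (x : G) = x * (q : G)⁻¹ := by
              have := hxq (q : G)⁻¹ (Q.inv_mem q.2)
              exact this
            rw [mul_inv_rev, mul_inv_rev, inv_inv, mul_assoc, mul_assoc, mul_assoc, mul_assoc, e3]
          rw [e2, hg]
        rw [e1, hf])]
      -- the sum over `J`
      symm
      have key : ∀ y : N, ((if y ∈ Subgroup.centralizer (QJ : Set N) then f y else 0) *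
          if y⁻¹ * x ∈ Subgroup.centralizer (QJ : Set N) then g ((y⁻¹ * x : N) : G) else 0) =
          if y ∈ Subgroup.centralizer (QJ : Set N) then f y * g ((y : G)⁻¹ * x) else 0 := by
        intro y
        by_cases hy : y ∈ Subgroup.centralizer (QJ : Set N)
        · have hyx : y⁻¹ * x ∈ Subgroup.centralizer (QJ : Set N) :=
            Subgroup.mul_mem _ (Subgroup.inv_mem _ hy) hx
          rw [if_pos hy, if_pos hy, if_pos hyx]
          rfl
        · rw [if_neg hy, if_neg hy, zero_mul]
      rw [Finset.sum_congr rfl (fun y _ => key y), ← Finset.sum_filter]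
      refine Finset.sum_bij (fun y _ => (y : G)) ?_ ?_ ?_ ?_
      · intro y hy
        have hy2 := (Finset.mem_filter.1 hy).2
        refine (mem_fx _).2 fun q => ?_
        rw [hact]
        have h3 := Subgroup.mem_centralizer_iff.1 hy2 ⟨q.1, Subgroup.le_normalizer q.2⟩
          (Subgroup.mem_subgroupOf.2 q.2)
        have h4 : (q : G) * (y : G) = y * q := congrArg Subtype.val h3
        rw [h4, mul_inv_cancel_right]
      · intro a _ b _ hab
        exact Subtype.ext hab
      · intro b hb
        have hb2 := (mem_fx _).1 hb
        have hbq : ∀ q ∈ Q, q * b = b * q := by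
          intro q hq
          have := hb2 ⟨q, hq⟩
          rw [hact] at this
          exact mul_inv_eq_iff_eq_mul.1 this
        have hbN : b ∈ N := by
          rw [hN, Subgroup.mem_normalizer_iff]
          intro q
          constructor
          · intro hq
            rw [← hbq q hq, mul_inv_cancel_right]
            exact hq
          · intro hq
            have h4 := hbq _ hq
            have h5 : b * (b * q * b⁻¹) = b * (q * 1) := by
              rw [← h4]
              group
            have h6 := mul_left_cancel h5
            rw [mul_one] at h6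
            rw [← h6]
            exact hq
        refine ⟨⟨b, hbN⟩, ?_, rfl⟩
        refine Finset.mem_filter.2 ⟨Finset.mem_univ _, ?_⟩
        rw [Subgroup.mem_centralizer_iff]
        intro q hq
        exact Subtype.ext (hbq q.1 (Subgroup.mem_subgroupOf.1 hq))
      · intro a _
        rfl
    · unfold cut
      rw [if_neg hx]
      symm
      apply Finset.sum_eq_zero
      intro y _
      by_cases hy : y ∈ Subgroup.centralizer (QJ : Set N)
      · by_cases hyx : y⁻¹ * x ∈ Subgroup.centralizer (QJ : Set N)
        · exfalso
          apply hx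
          have := Subgroup.mul_mem _ hy hyx
          rwa [mul_inv_cancel_left] at this
        · rw [if_neg hyx, mul_zero]
      · rw [if_neg hy, zero_mul]

end Pool.Agent.Y930.NV
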